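import Mathlib

set_option autoImplicit false

namespace Pool.Agent.P.MP_7eb8f3_nt.Lin

open Finset

/-- Ultrametric form of the Cauchy determinant inequality. -/
theorem core (u d e : ℕ → ℕ → ℝ) (F G : ℕ → ℝ)
    (hd : ∀ x x', 0 ≤ d x x') (hds : ∀ x x', d x x' = d x' x)
    (he : ∀ y y', 0 ≤ e y y') (hes : ∀ y y', e y y' = e y' y) (n : ℕ) :
    ∀ X Y : Finset ℕ, Y.card = n → (∀ x ∈ X, 0 ≤ F x) → (∀ y ∈ Y, 0 ≤ G y) →
      (∀ x ∈ X, ∀ y ∈ Y, u x y ≤ F x + G y) →
      (∀ x ∈ X, ∀ x' ∈ X, ∀ y ∈ Y, x ≠ x' → u x y ≤ u x' y → u x y ≤ d x x') →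
      (∀ x ∈ X, ∀ y ∈ Y, ∀ y' ∈ Y, y ≠ y' → u x y ≤ u x y' → u x y ≤ e y y') →
      ∑ x ∈ X, ∑ y ∈ Y, u x y ≤ (∑ x ∈ X, ∑ x' ∈ X, d x x') / 2 +
        (∑ y ∈ Y, ∑ y' ∈ Y, e y y') / 2 + (∑ x ∈ X, F x + ∑ y ∈ Y, G y) := by
  have pos : ∀ X Y : Finset ℕ, (∀ x ∈ X, 0 ≤ F x) → (∀ y ∈ Y, 0 ≤ G y) →
      0 ≤ (∑ x ∈ X, ∑ x' ∈ X, d x x') / 2 +
        (∑ y ∈ Y, ∑ y' ∈ Y, e y y') / 2 + (∑ x ∈ X, F x + ∑ y ∈ Y, G y) := by
    intro X Y hF hG
    have h1 : 0 ≤ ∑ x ∈ X, ∑ x' ∈ X, d x x' := sum_nonneg fun _ _ => sum_nonneg fun _ _ => hd _ _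
    have h2 : 0 ≤ ∑ y ∈ Y, ∑ y' ∈ Y, e y y' := sum_nonneg fun _ _ => sum_nonneg fun _ _ => he _ _
    have h3 := sum_nonneg hF
    have h4 := sum_nonneg hG
    linarith
  induction n with
  | zero =>
    intro X Y hY hF hG _ _ _
    have h := pos X Y hF hG
    rw [card_eq_zero] at hY
    subst hY
    simpa using h
  | succ n ih =>
    intro X Y hY hF hG hu hX hYY
    rcases X.eq_empty_or_nonempty with rfl | hne
    · simpa using pos ∅ Y hF hG
    have hYne : Y.Nonempty := card_pos.mp (by omega)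
    obtain ⟨⟨x0, y0⟩, hm, hmax⟩ :=
      exists_max_image (X ×ˢ Y) (fun z => u z.1 z.2) (hne.product hYne)
    obtain ⟨hx0, hy0⟩ := mem_product.mp hm
    simp only at hx0 hy0 hmax
    have hmx : ∀ x ∈ X, ∀ y ∈ Y, u x y ≤ u x0 y0 := fun x hx y hy =>
      hmax (x, y) (mem_product.mpr ⟨hx, hy⟩)
    have sX : ∀ x ∈ X.erase x0, x ∈ X := fun x hx => mem_of_mem_erase hx
    have sY : ∀ y ∈ Y.erase y0, y ∈ Y := fun y hy => mem_of_mem_erase hy
    have IH := ih (X.erase x0) (Y.erase y0) (by rw [card_erase_of_mem hy0]; omega)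
      (fun x hx => hF x (sX x hx)) (fun y hy => hG y (sY y hy))
      (fun x hx y hy => hu x (sX x hx) y (sY y hy))
      (fun x hx x' hx' y hy => hX x (sX x hx) x' (sX x' hx') y (sY y hy))
      (fun x hx y hy y' hy' => hYY x (sX x hx) y (sY y hy) y' (sY y' hy'))
    have dbl : ∀ (w : ℕ → ℕ → ℝ) (P Q : Finset ℕ) (a b : ℕ), a ∈ P → b ∈ Q →
        ∑ x ∈ P, ∑ y ∈ Q, w x y = w a b + ∑ y ∈ Q.erase b, w a y + ∑ x ∈ P.erase a, w x b +
          ∑ x ∈ P.erase a, ∑ y ∈ Q.erase b, w x y := by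
      intro w P Q a b ha hb
      rw [← add_sum_erase P _ ha, ← add_sum_erase Q _ hb, add_assoc (w a b + _), ← sum_add_distrib]
      congr 1
      exact sum_congr rfl fun x _ => (add_sum_erase Q _ hb).symm
    rw [dbl u X Y x0 y0 hx0 hy0, dbl d X X x0 x0 hx0 hx0, dbl e Y Y y0 y0 hy0 hy0,
      ← add_sum_erase X F hx0, ← add_sum_erase Y G hy0]
    have a1 : ∑ x ∈ X.erase x0, u x y0 ≤ ∑ x ∈ X.erase x0, d x x0 :=
      sum_le_sum fun x hx => hX x (sX x hx) x0 hx0 y0 hy0 (ne_of_mem_erase hx)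
        (hmx x (sX x hx) y0 hy0)
    have a2 : ∑ y ∈ Y.erase y0, u x0 y ≤ ∑ y ∈ Y.erase y0, e y y0 :=
      sum_le_sum fun y hy => hYY x0 hx0 y (sY y hy) y0 hy0 (ne_of_mem_erase hy)
        (hmx x0 hx0 y (sY y hy))
    have a3 : ∑ x ∈ X.erase x0, d x0 x = ∑ x ∈ X.erase x0, d x x0 :=
      sum_congr rfl fun x _ => hds _ _
    have a4 : ∑ y ∈ Y.erase y0, e y0 y = ∑ y ∈ Y.erase y0, e y y0 :=
      sum_congr rfl fun y _ => hes _ _
    have a5 := hu x0 hx0 y0 hy0
    have a6 := hd x0 x0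
    have a7 := he y0 y0
    linarith

/-- Logarithm of the `p`-part of `N`. -/
noncomputable def V (p N : ℕ) : ℝ := (N.factorization p : ℝ) * Real.log p

theorem V_nonneg (p N : ℕ) : 0 ≤ V p N :=
  mul_nonneg (Nat.cast_nonneg _) (Real.log_natCast_nonneg p)

theorem log_eq (N : ℕ) : Real.log N = ∑ p ∈ N.primeFactors, V p N := by
  rw [Real.log_nat_eq_sum_factorization, Finsupp.sum, Nat.support_factorization]
  rfl

theorem V_zero {p N : ℕ} (h : p ∉ N.primeFactors) : V p N = 0 := by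
  have : N.factorization p = 0 := by
    rwa [← Nat.support_factorization, Finsupp.notMem_support_iff] at h
  simp [V, this]

theorem sumV_le (S : Finset ℕ) (N : ℕ) : ∑ p ∈ S, V p N ≤ Real.log N := by
  rw [log_eq, ← sum_subset (s₁ := S ∩ N.primeFactors) inter_subset_left
    (fun p hp h => V_zero fun h' => h (mem_inter.mpr ⟨hp, h'⟩))]
  exact sum_le_sum_of_subset_of_nonneg inter_subset_right fun p _ _ => V_nonneg p N

theorem sumV_eq {S : Finset ℕ} {N : ℕ} (h : ∀ p, p.Prime → p ∣ N → p ∈ S) :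
    ∑ p ∈ S, V p N = Real.log N := by
  rw [log_eq]
  exact (sum_subset (fun p hp => h p (Nat.prime_of_mem_primeFactors hp)
    (Nat.dvd_of_mem_primeFactors hp)) fun p _ hp => V_zero hp).symm

theorem V_le (p N : ℕ) : V p N ≤ Real.log N := by
  simpa using sumV_le {p} N

/-- The ultrametric step. -/
theorem V_step {p x y y' : ℕ} (hp : p.Prime) (hne : y ≠ y')
    (h : V p (x * y + 1) ≤ V p (x * y' + 1)) : V p (x * y + 1) ≤ V p (Nat.dist y y') := by
  have hl : 0 < Real.log p := Real.log_pos (by exact_mod_cast hp.one_lt)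
  have h1 : (x * y + 1).factorization p ≤ (x * y' + 1).factorization p := by
    have := le_of_mul_le_mul_right h hl
    exact_mod_cast this
  set v := (x * y + 1).factorization p with hv
  have d1 : p ^ v ∣ x * y + 1 := (hp.pow_dvd_iff_le_factorization (by omega)).mpr le_rfl
  have d2 : p ^ v ∣ x * y' + 1 := (hp.pow_dvd_iff_le_factorization (by omega)).mpr h1
  have hc : Nat.Coprime (p ^ v) x := by
    have : Nat.Coprime (x * y + 1) x := by simp
    exact this.coprime_dvd_left d1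
  have d3 : p ^ v ∣ x * Nat.dist y y' := by
    rw [← Nat.dist_mul_left, ← Nat.dist_add_add_right (x * y) 1 (x * y'), Nat.dist]
    exact Nat.dvd_add (Nat.dvd_sub d1 d2) (Nat.dvd_sub d2 d1)
  have d4 := hc.dvd_of_dvd_mul_left d3
  have h0 : Nat.dist y y' ≠ 0 := fun h => hne (Nat.eq_of_dist_eq_zero h)
  have := (hp.pow_dvd_iff_le_factorization h0).mp d4
  exact mul_le_mul_of_nonneg_right (by exact_mod_cast this) hl.le

/-- Bound for the discriminant. -/
theorem disc_le (a : ℕ → ℕ) (s : ℕ) (ha : ∀ i j, i < j → j < s → a i < a j) :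
    ∑ i ∈ range s, ∑ j ∈ range s, Real.log (Nat.dist (a i) (a j)) ≤
      2 * ∑ i ∈ range s, (i : ℝ) * Real.log (a i) := by
  induction s with
  | zero => simp
  | succ s ih =>
    have IH := ih fun i j h h' => ha i j h (by omega)
    have b : ∀ i ∈ range s, Real.log (Nat.dist (a i) (a s)) ≤ Real.log (a s) := by
      intro i hi
      have h := ha i s (mem_range.mp hi) (by omega)
      rw [Nat.dist_eq_sub_of_le h.le]
      exact Real.log_le_log (by exact_mod_cast Nat.sub_pos_of_lt h)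
        (by exact_mod_cast Nat.sub_le _ _)
    have b1 := sum_le_sum b
    have b2 : ∑ i ∈ range s, Real.log (Nat.dist (a s) (a i)) =
        ∑ i ∈ range s, Real.log (Nat.dist (a i) (a s)) :=
      sum_congr rfl fun i _ => by rw [Nat.dist_comm]
    simp only [sum_const, card_range, nsmul_eq_mul] at b1
    simp only [sum_range_succ, sum_add_distrib, Nat.dist_self, Nat.cast_zero, Real.log_zero]
    linarith

/-- The main inequality for two increasing sequences. -/
theorem ineq (S : Finset ℕ) (hS : ∀ p ∈ S, p.Prime) (a b : ℕ → ℕ) (s t : ℕ)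
    (ha : ∀ i j, i < j → j < s → a i < a j) (hb : ∀ i j, i < j → j < t → b i < b j)
    (ha0 : ∀ i < s, 0 < a i) (hb0 : ∀ j < t, 0 < b j)
    (h : ∀ i < s, ∀ j < t, a i ≠ b j → ∀ p, p.Prime → p ∣ a i * b j + 1 → p ∈ S)
    (F G : ℕ → ℝ) (hF : ∀ i < s, 0 ≤ F i) (hG : ∀ j < t, 0 ≤ G j)
    (hFG : ∀ i < s, ∀ j < t, Real.log ((a i * b j + 1 : ℕ) : ℝ) ≤ F i + G j) :
    t * ∑ i ∈ range s, Real.log (a i) + s * ∑ j ∈ range t, Real.log (b j) ≤
      ∑ i ∈ range s, (i : ℝ) * Real.log (a i) + ∑ j ∈ range t, (j : ℝ) * Real.log (b j) +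
        (S.card + 1) * (∑ i ∈ range s, F i + ∑ j ∈ range t, G j) := by
  have ia : ∀ i < s, ∀ j < s, i ≠ j → a i ≠ a j := fun i hi j hj hne => by
    rcases lt_or_gt_of_ne hne with h | h
    · exact (ha i j h hj).ne
    · exact (ha j i h hi).ne'
  have ib : ∀ i < t, ∀ j < t, i ≠ j → b i ≠ b j := fun i hi j hj hne => by
    rcases lt_or_gt_of_ne hne with h | h
    · exact (hb i j h hj).ne
    · exact (hb j i h hi).ne'
  have hF' : ∀ i ∈ range s, 0 ≤ F i := fun i hi => hF i (mem_range.mp hi)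
  have hG' : ∀ i ∈ range t, 0 ≤ G i := fun i hi => hG i (mem_range.mp hi)
  have c1 : ∀ p ∈ S, ∑ i ∈ range s, ∑ j ∈ range t,
      (if a i = b j then 0 else V p (a i * b j + 1)) ≤
      (∑ i ∈ range s, ∑ j ∈ range s, V p (Nat.dist (a i) (a j))) / 2 +
      (∑ i ∈ range t, ∑ j ∈ range t, V p (Nat.dist (b i) (b j))) / 2 +
      (∑ i ∈ range s, F i + ∑ j ∈ range t, G j) := by
    intro p hp
    refine core (fun i j => if a i = b j then 0 else V p (a i * b j + 1))
      (fun i j => V p (Nat.dist (a i) (a j))) (fun i j => V p (Nat.dist (b i) (b j))) F G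
      (fun _ _ => V_nonneg _ _) (fun _ _ => by rw [Nat.dist_comm]) (fun _ _ => V_nonneg _ _)
      (fun _ _ => by rw [Nat.dist_comm]) t _ _ (card_range t) hF' hG' ?_ ?_ ?_
    · intro i hi j hj
      split_ifs
      · exact add_nonneg (hF' i hi) (hG' j hj)
      · exact (V_le _ _).trans (hFG i (mem_range.mp hi) j (mem_range.mp hj))
    · intro i hi i' hi' j _ hne hle
      split_ifs at hle ⊢
      · exact V_nonneg _ _
      · exact V_nonneg _ _
      · exact hle.trans (V_nonneg _ _)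
      · rw [mul_comm (a i)] at hle ⊢
        rw [mul_comm (a i')] at hle
        exact V_step (hS p hp) (ia i (mem_range.mp hi) i' (mem_range.mp hi') hne) hle
    · intro i _ j hj j' hj' hne hle
      split_ifs at hle ⊢
      · exact V_nonneg _ _
      · exact V_nonneg _ _
      · exact hle.trans (V_nonneg _ _)
      · exact V_step (hS p hp) (ib j (mem_range.mp hj) j' (mem_range.mp hj') hne) hle
  have lg : ∀ i < s, ∀ j < t,
      Real.log (a i) + Real.log (b j) ≤ Real.log ((a i * b j + 1 : ℕ) : ℝ) := by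
    intro i hi j hj
    have h1 : (0 : ℝ) < a i := by exact_mod_cast ha0 i hi
    have h2 : (0 : ℝ) < b j := by exact_mod_cast hb0 j hj
    rw [← Real.log_mul h1.ne' h2.ne']
    exact Real.log_le_log (mul_pos h1 h2) (by push_cast; linarith)
  have c2 := core (fun i j => if a i = b j then Real.log ((a i * b j + 1 : ℕ) : ℝ) else 0)
    (fun _ _ => 0) (fun _ _ => 0) F G (fun _ _ => le_rfl) (fun _ _ => rfl) (fun _ _ => le_rfl)
    (fun _ _ => rfl) t _ _ (card_range t) hF' hG'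
    (fun i hi j hj => by
      split_ifs
      · exact hFG i (mem_range.mp hi) j (mem_range.mp hj)
      · exact add_nonneg (hF' i hi) (hG' j hj))
    (fun i hi i' hi' j _ hne hle => by
      split_ifs at hle ⊢ with h1 h2
      · exact absurd (h1.trans h2.symm) (ia i (mem_range.mp hi) i' (mem_range.mp hi') hne)
      · exact hle
      · exact le_rfl
      · exact le_rfl)
    (fun i _ j hj j' hj' hne hle => by
      split_ifs at hle ⊢ with h1 h2
      · exact absurd (h1.symm.trans h2) (ib j (mem_range.mp hj) j' (mem_range.mp hj') hne)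
      · exact hle
      · exact le_rfl
      · exact le_rfl)
  have c3 := sum_le_sum c1
  have sw : ∀ (P Q : Finset ℕ) (w : ℕ → ℕ → ℕ → ℝ), ∑ p ∈ S, ∑ i ∈ P, ∑ j ∈ Q, w p i j =
      ∑ i ∈ P, ∑ j ∈ Q, ∑ p ∈ S, w p i j := by
    intro P Q w
    rw [sum_comm]
    exact sum_congr rfl fun i _ => sum_comm
  simp only [sum_add_distrib, ← sum_div, sum_const, nsmul_eq_mul] at c3
  rw [sw, sw, sw] at c3
  have e1 : ∑ i ∈ range s, ∑ j ∈ range s, ∑ p ∈ S, V p (Nat.dist (a i) (a j)) ≤ _ :=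
    (sum_le_sum fun i _ => sum_le_sum fun j _ => sumV_le S _).trans (disc_le a s ha)
  have e2 : ∑ i ∈ range t, ∑ j ∈ range t, ∑ p ∈ S, V p (Nat.dist (b i) (b j)) ≤ _ :=
    (sum_le_sum fun i _ => sum_le_sum fun j _ => sumV_le S _).trans (disc_le b t hb)
  have e3 : ∑ i ∈ range s, ∑ j ∈ range t, (Real.log (a i) + Real.log (b j)) ≤
      ∑ i ∈ range s, ∑ j ∈ range t,
        ((∑ p ∈ S, if a i = b j then 0 else V p (a i * b j + 1)) +
          if a i = b j then Real.log ((a i * b j + 1 : ℕ) : ℝ) else 0) := by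
    refine sum_le_sum fun i hi => sum_le_sum fun j hj => ?_
    have l := lg i (mem_range.mp hi) j (mem_range.mp hj)
    split_ifs with hh
    · simpa using l
    · rw [sumV_eq (h i (mem_range.mp hi) j (mem_range.mp hj) hh)]
      linarith
  simp only [sum_add_distrib, sum_const, card_range, nsmul_eq_mul, ← mul_sum] at e3
  simp only [sum_const_zero] at c2
  linarith

end Pool.Agent.P.MP_7eb8f3_nt.Lin
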