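import Mathlib
import Pool.Agent.P.MP_7eb8f3_nt.Lin.Core

set_option autoImplicit false

namespace Pool.Agent.P.MP_7eb8f3_nt.Lin

open Finset

/-- Summation by parts on a block. -/
theorem abel (T g c : ℕ → ℝ) (r m : ℕ) (hc : ∀ i < m, c i = T i - T (i + 1))
    (h : ∀ i < m, 0 ≤ T (i + 1) * (g (r + (i + 1)) - g (r + i))) :
    T 0 * g r - T m * g (r + m) ≤ ∑ i ∈ range m, c i * g (r + i) := by
  induction m with
  | zero => simp
  | succ m ih =>
    have IH := ih (fun i hi => hc i (by omega)) fun i hi => h i (by omega)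
    have h1 := h m (by omega)
    rw [sum_range_succ, hc m (by omega)]
    nlinarith

theorem log_succ_le {x y : ℕ} (hx : 0 < x) (hy : 0 < y) :
    Real.log ((x * y + 1 : ℕ) : ℝ) ≤ Real.log x + Real.log y + Real.log 2 := by
  have h1 : (1 : ℝ) ≤ x := by exact_mod_cast hx
  have h2 : (1 : ℝ) ≤ y := by exact_mod_cast hy
  rw [← Real.log_mul (by linarith) (by linarith), ← Real.log_mul (by positivity) (by norm_num)]
  refine Real.log_le_log (by positivity) ?_
  push_cast
  nlinarith [mul_le_mul h1 h2 zero_le_one (by linarith)]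

theorem mono {a : ℕ → ℕ} {n : ℕ} (ha : ∀ i j, i < j → j < n → a i < a j) (ha0 : ∀ i < n, 0 < a i)
    {i j : ℕ} (h : i ≤ j) (hj : j < n) : Real.log (a i) ≤ Real.log (a j) := by
  rcases h.eq_or_lt with rfl | h
  · exact le_rfl
  · exact Real.log_le_log (by exact_mod_cast ha0 i (by omega)) (by exact_mod_cast (ha i j h hj).le)

/-- The small elements of one sequence against the large elements of the other. -/
theorem unbal (S : Finset ℕ) (hS : ∀ p ∈ S, p.Prime) (a b : ℕ → ℕ) (k : ℕ) (hk : S.card = k)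
    (ha : ∀ i j, i < j → j < 5 * k + 4 → a i < a j) (hb : ∀ i j, i < j → j < 5 * k + 4 → b i < b j)
    (ha0 : ∀ i < 5 * k + 4, 0 < a i) (hb0 : ∀ j < 5 * k + 4, 0 < b j)
    (h : ∀ i < 5 * k + 4, ∀ j < 5 * k + 4, a i ≠ b j → ∀ p, p.Prime → p ∣ a i * b j + 1 → p ∈ S) :
    ∑ i ∈ range (3 * k + 3), ((k : ℝ) + 1 - i) * Real.log (a i) +
      ∑ j ∈ range (k + 1), (2 * ((k : ℝ) + 1) - j) * Real.log (b (4 * k + 3 + j)) ≤
      ((k : ℝ) + 1) ^ 2 * (Real.log (a (3 * k + 3)) + Real.log 2) := by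
  have l2 : 0 ≤ Real.log 2 := Real.log_nonneg one_le_two
  have := ineq S hS a (fun j => b (4 * k + 3 + j)) (3 * k + 3) (k + 1)
    (fun i j hij hj => ha i j hij (by omega)) (fun i j hij hj => hb _ _ (by omega) (by omega))
    (fun i hi => ha0 i (by omega)) (fun j hj => hb0 _ (by omega))
    (fun i hi j hj => h i (by omega) _ (by omega)) (fun _ => 0)
    (fun j => Real.log (b (4 * k + 3 + j)) + (Real.log (a (3 * k + 3)) + Real.log 2))
    (fun _ _ => le_rfl)
    (fun j _ => add_nonneg (Real.log_natCast_nonneg _) (add_nonneg (Real.log_natCast_nonneg _) l2))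
    (fun i hi j hj => by
      have h1 := log_succ_le (ha0 i (by omega)) (hb0 (4 * k + 3 + j) (by omega))
      have h2 := mono ha ha0 (i := i) (j := 3 * k + 3) (by omega) (by omega)
      linarith)
  simp only [sum_const_zero, sum_add_distrib, sum_const, card_range, nsmul_eq_mul, hk] at this
  simp only [sub_mul, sum_sub_distrib, ← mul_sum]
  push_cast at this
  nlinarith

theorem seq_false (S : Finset ℕ) (hS : ∀ p ∈ S, p.Prime) (a b : ℕ → ℕ) (k : ℕ) (hk : S.card = k)
    (hk1 : 1 ≤ k)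
    (ha : ∀ i j, i < j → j < 5 * k + 4 → a i < a j) (hb : ∀ i j, i < j → j < 5 * k + 4 → b i < b j)
    (ha0 : ∀ i < 5 * k + 4, 0 < a i) (hb0 : ∀ j < 5 * k + 4, 0 < b j)
    (h : ∀ i < 5 * k + 4, ∀ j < 5 * k + 4, a i ≠ b j → ∀ p, p.Prime → p ∣ a i * b j + 1 → p ∈ S) :
    False := by
  have l2 : 0 < Real.log 2 := Real.log_pos one_lt_two
  have u1 := unbal S hS a b k hk ha hb ha0 hb0 h
  have u2 := unbal S hS b a k hk hb ha hb0 ha0
    fun i hi j hj hne p hp hd => h j hj i hi hne.symm p hp (by rwa [mul_comm])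
  have u3 := ineq S hS a b (5 * k + 4) (5 * k + 4) ha hb ha0 hb0 h
    (fun i => Real.log (a i) + Real.log 2) (fun j => Real.log (b j))
    (fun j _ => add_nonneg (Real.log_natCast_nonneg _) l2.le)
    (fun j _ => Real.log_natCast_nonneg _)
    (fun i hi j hj => by
      have h1 := log_succ_le (ha0 i hi) (hb0 j hj)
      linarith)
  set g : ℕ → ℝ := fun i => Real.log (a i) + Real.log (b i) with hg
  have gm : ∀ i, i + 1 < 5 * k + 4 → 0 ≤ g (i + 1) - g i := fun i hi => by
    have h1 := mono ha ha0 (Nat.le_succ i) hi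
    have h2 := mono hb hb0 (Nat.le_succ i) hi
    simp only [hg]
    linarith
  have g0 : 0 ≤ g 0 := add_nonneg (Real.log_natCast_nonneg _) (Real.log_natCast_nonneg _)
  have g1 : 2 * Real.log 2 ≤ g 1 := by
    have h1 : 2 ≤ a 1 := by have := ha 0 1 (by omega) (by omega); have := ha0 0 (by omega); omega
    have h2 : 2 ≤ b 1 := by have := hb 0 1 (by omega) (by omega); have := hb0 0 (by omega); omega
    have h3 : Real.log 2 ≤ Real.log (a 1) := Real.log_le_log two_pos (by exact_mod_cast h1)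
    have h4 : Real.log 2 ≤ Real.log (b 1) := Real.log_le_log two_pos (by exact_mod_cast h2)
    simp only [hg]
    linarith
  have v3 : ∑ i ∈ range (5 * k + 4), (4 * (k : ℝ) + 3 - i) * g i ≤
      ((k : ℝ) + 1) * (5 * k + 4) * Real.log 2 := by
    simp only [sum_add_distrib, sum_const, card_range, nsmul_eq_mul, hk] at u3
    simp only [hg, sub_mul, mul_add, sum_sub_distrib, sum_add_distrib, ← mul_sum]
    push_cast at u3
    nlinarith
  have v1 : ∑ i ∈ range (3 * k + 3), ((k : ℝ) + 1 - i) * g i +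
      ∑ j ∈ range (k + 1), (2 * ((k : ℝ) + 1) - j) * g (4 * k + 3 + j) ≤
      ((k : ℝ) + 1) ^ 2 * (g (3 * k + 3) + 2 * Real.log 2) := by
    simp only [hg, mul_add (_ - _ : ℝ), sum_add_distrib]
    linarith
  have hK : (1 : ℝ) ≤ k := by exact_mod_cast hk1
  have b1 := abel (fun i => ((i : ℝ) - k) ^ 2 - 3 * (k + 1) * (i - k) + (5 * (k + 1) ^ 2 + (k + 1)) / 2)
    g (fun i => 5 * (k : ℝ) + 4 - 2 * (1 + i)) 1 (3 * k + 2) (fun i _ => by push_cast; ring)
    (fun i hi => mul_nonneg (by nlinarith [sq_nonneg (2 * (((i + 1 : ℕ) : ℝ) - k) - 3 * (k + 1))])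
      (gm (1 + i) (by omega)))
  have b2 := abel (fun i => (((k : ℝ) - i) ^ 2 + (2 * k + 1 - i) + 2 * (k + 1) ^ 2 + (k + 1)) / 2)
    g (fun i => (k : ℝ) - i) (3 * k + 3) k (fun i _ => by push_cast; ring)
    (fun i hi => mul_nonneg (by
        have : ((i + 1 : ℕ) : ℝ) ≤ k := by exact_mod_cast hi
        nlinarith [sq_nonneg ((k : ℝ) - ((i + 1 : ℕ) : ℝ))])
      (gm (3 * k + 3 + i) (by omega)))
  have b3 := abel (fun i => ((k : ℝ) + 1 - i) * (k + 2 - i))
    g (fun i => 2 * ((k : ℝ) + 1 - i)) (4 * k + 3) (k + 1) (fun i _ => by push_cast; ring)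
    (fun i hi => by
      rcases (Nat.lt_succ_iff.mp hi).eq_or_lt with rfl | hi'
      · simp
      · have : ((i + 1 : ℕ) : ℝ) ≤ k := by exact_mod_cast hi'
        exact mul_nonneg (mul_nonneg (by linarith) (by linarith)) (gm (4 * k + 3 + i) (by omega)))
  have s1 : ∑ i ∈ range (5 * k + 4), (4 * (k : ℝ) + 3 - i) * g i =
      ∑ i ∈ range (3 * k + 3), (4 * (k : ℝ) + 3 - i) * g i +
      ∑ i ∈ range k, ((k : ℝ) - i) * g (3 * k + 3 + i) +
      ∑ i ∈ range (k + 1), (-(i : ℝ)) * g (4 * k + 3 + i) := by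
    rw [show 5 * k + 4 = 3 * k + 3 + k + (k + 1) by ring, sum_range_add, sum_range_add,
      show 3 * k + 3 + k = 4 * k + 3 by ring]
    congr 1
    · congr 1
      exact sum_congr rfl fun i _ => by push_cast; ring
    · exact sum_congr rfl fun i _ => by push_cast; ring
  have s2 : ∑ i ∈ range (3 * k + 3), (4 * (k : ℝ) + 3 - i) * g i +
      ∑ i ∈ range (3 * k + 3), ((k : ℝ) + 1 - i) * g i = (5 * k + 4) * g 0 +
      ∑ i ∈ range (3 * k + 2), (5 * (k : ℝ) + 4 - 2 * (1 + i)) * g (1 + i) := by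
    rw [← sum_add_distrib, show 3 * k + 3 = 1 + (3 * k + 2) by ring, sum_range_add]
    congr 1
    · simp
      ring
    · exact sum_congr rfl fun i _ => by push_cast; ring
  have s3 : ∑ i ∈ range (k + 1), (-(i : ℝ)) * g (4 * k + 3 + i) +
      ∑ j ∈ range (k + 1), (2 * ((k : ℝ) + 1) - j) * g (4 * k + 3 + j) =
      ∑ i ∈ range (k + 1), 2 * ((k : ℝ) + 1 - i) * g (4 * k + 3 + i) := by
    rw [← sum_add_distrib]
    exact sum_congr rfl fun i _ => by ring
  rw [show 1 + (3 * k + 2) = 3 * k + 3 by ring] at b1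
  rw [show 3 * k + 3 + k = 4 * k + 3 by ring] at b2
  push_cast at b1 b2 b3
  have f1 : (13 * (k : ℝ) ^ 2 + 17 * k + 6) / 2 * (2 * Real.log 2) ≤
      (13 * (k : ℝ) ^ 2 + 17 * k + 6) / 2 * g 1 := mul_le_mul_of_nonneg_left g1 (by positivity)
  have f2 : 0 ≤ (5 * (k : ℝ) + 4) * g 0 := by positivity
  have f3 : 0 < (6 * (k : ℝ) ^ 2 + 4 * k) * Real.log 2 := by positivity
  nlinarith

theorem main (S A B : Finset ℕ) (hS : ∀ p ∈ S, p.Prime) (hA : ∀ a ∈ A, 0 < a) (hB : ∀ b ∈ B, 0 < b)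
    (h : ∀ a ∈ A, ∀ b ∈ B, a ≠ b → ∀ p, p.Prime → p ∣ a * b + 1 → p ∈ S) :
    min A.card B.card ≤ 5 * S.card + 3 := by
  by_contra hc
  have h1 : 5 * S.card + 4 ≤ A.card := by omega
  have h2 : 5 * S.card + 4 ≤ B.card := by omega
  have en : ∀ (A : Finset ℕ) (n : ℕ), n ≤ A.card → ∃ a : ℕ → ℕ,
      (∀ i j, i < j → j < n → a i < a j) ∧ ∀ i < n, a i ∈ A := by
    intro A n hn
    refine ⟨fun i => if h : i < A.card then A.orderEmbOfFin rfl ⟨i, h⟩ else 0, ?_, ?_⟩
    · intro i j hij hj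
      simp only [dif_pos (show i < A.card by omega), dif_pos (show j < A.card by omega)]
      exact (A.orderEmbOfFin rfl).strictMono (Fin.mk_lt_mk.mpr hij)
    · intro i hi
      simp only [dif_pos (show i < A.card by omega)]
      exact A.orderEmbOfFin_mem rfl _
  obtain ⟨a, ha, ha'⟩ := en A _ h1
  obtain ⟨b, hb, hb'⟩ := en B _ h2
  rcases Nat.eq_zero_or_pos S.card with h0 | h0
  · have key : ∀ i < 5 * S.card + 4, a i = b 0 := by
      intro i hi
      by_contra hne
      have p1 := hA _ (ha' i hi)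
      have p2 := hB _ (hb' 0 (by omega))
      have hp : a i * b 0 + 1 ≠ 1 := by have := Nat.mul_pos p1 p2; omega
      have := h _ (ha' i hi) _ (hb' 0 (by omega)) hne _ (Nat.minFac_prime hp) (Nat.minFac_dvd _)
      rw [card_eq_zero.mp h0] at this
      simp at this
    have := ha 0 1 (by omega) (by omega)
    rw [key 0 (by omega), key 1 (by omega)] at this
    exact lt_irrefl _ this
  · exact seq_false S hS a b _ rfl h0 ha hb (fun i hi => hA _ (ha' i hi))
      (fun i hi => hB _ (hb' i hi)) fun i hi j hj => h _ (ha' i hi) _ (hb' j hj)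

end Pool.Agent.P.MP_7eb8f3_nt.Lin
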